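import Pool.Agent.W187.MW.Stm
import Pool.Agent.W8.WP.EF1
import Pool.Agent.W187.WP.EFb

/-!
# The archimedean terms of the explicit formula are bounded by the energy
-/

set_option autoImplicit false

open Complex MeasureTheory Set Filter
open scoped ComplexConjugate Convolution
open Pool.Agent.W187.WP Pool.Agent.W187.WQ Pool.Agent.W187.MW

namespace Pool.Agent.W338.MW

theorem ef : S_EF := by
  intro g hg hc
  have h1 := Pool.Agent.W8.WP.ef1 g hg hc
  rwa [EFb.ef2 g hg hc] at h1

/-! ## correlations (as in `Pool.Agent.W187.WP.Final`) -/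

/-- cross-correlation of complex functions -/
noncomputable def Co (p q : ℝ → ℂ) (y : ℝ) : ℂ := ∫ x : ℝ, p (x + y) * q x

theorem Co_conv (p q : ℝ → ℂ) :
    Co p q = (fun t => q (-t)) ⋆[ContinuousLinearMap.mul ℝ ℂ, volume] p := by
  ext s
  rw [convolution_def]
  unfold Co
  rw [← integral_neg_eq_self (fun x => (ContinuousLinearMap.mul ℝ ℂ) (q (-x)) (p (s - x)))]
  congr 1
  ext x
  simp only [ContinuousLinearMap.mul_apply', neg_neg, sub_neg_eq_add]
  rw [add_comm s x]
  ring

theorem Co_contDiff {p q : ℝ → ℂ} (hp : ContDiff ℝ 2 p) (cp : HasCompactSupport p)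
    (hq : Continuous q) : ContDiff ℝ 2 (Co p q) := by
  rw [Co_conv]
  refine HasCompactSupport.contDiff_convolution_right _ cp ?_ hp
  exact (hq.comp continuous_neg).locallyIntegrable

theorem Co_deriv {p q : ℝ → ℂ} (hp : ContDiff ℝ 2 p) (cp : HasCompactSupport p)
    (hq : Continuous q) (v : ℝ) : HasDerivAt (Co p q) (Co (deriv p) q v) v := by
  rw [Co_conv, Co_conv]
  exact HasCompactSupport.hasDerivAt_convolution_right _ (hq.comp continuous_neg).locallyIntegrable
    cp (hp.of_le (by norm_num)) v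

theorem Co_compact {p q : ℝ → ℂ} {b : ℝ} (hp : ∀ x, b < |x| → p x = 0)
    (hq : ∀ x, b < |x| → q x = 0) : HasCompactSupport (Co p q) := by
  refine HasCompactSupport.intro (isCompact_Icc (a := -(2 * b)) (b := 2 * b)) fun y hy => ?_
  unfold Co
  have : (fun x : ℝ => p (x + y) * q x) = fun _ => 0 := by
    funext x
    by_cases hx : b < |x|
    · rw [hq x hx, mul_zero]
    · push Not at hx
      rw [hp (x + y), zero_mul]
      by_contra hlt
      push Not at hlt
      rw [abs_le] at hlt hx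
      exact hy ⟨by linarith [hlt.1, hx.2], by linarith [hlt.2, hx.1]⟩
  rw [this, integral_zero]

theorem lap_Co {p q : ℝ → ℂ} (hp : Continuous p) (cp : HasCompactSupport p)
    (hq : Continuous q) (cq : HasCompactSupport q) (z : ℂ) :
    lap (Co p q) z = lap p z * lap q (-z) := by
  unfold lap Co
  have h1 : ∀ u : ℝ, (∫ x : ℝ, p (x + u) * q x) * cexp (z * u) =
      ∫ x : ℝ, (p (x + u) * cexp (z * ((x + u : ℝ) : ℂ))) * (q x * cexp (-z * x)) := by
    intro u
    rw [← integral_mul_const]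
    congr 1; funext x
    rw [show (p (x + u) * cexp (z * ((x + u : ℝ) : ℂ))) * (q x * cexp (-z * x)) =
      p (x + u) * q x * (cexp (z * ((x + u : ℝ) : ℂ)) * cexp (-z * x)) by ring, ← Complex.exp_add]
    congr 2
    push_cast; ring
  simp only [h1]
  set P : ℝ → ℂ := fun t => p t * cexp (z * t) with hP
  set Q : ℝ → ℂ := fun t => q t * cexp (-z * t) with hQ
  have cP : Continuous P := hp.mul (by fun_prop)
  have cQ : Continuous Q := hq.mul (by fun_prop)
  have kP : HasCompactSupport P := cp.mul_right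
  have kQ : HasCompactSupport Q := cq.mul_right
  have iP : Integrable P := cP.integrable_of_hasCompactSupport kP
  have iQ : Integrable Q := cQ.integrable_of_hasCompactSupport kQ
  have e3 : ∫ u : ℝ, ∫ x : ℝ, (p (x + u) * cexp (z * ((x + u : ℝ) : ℂ))) * (q x * cexp (-z * x)) =
      ∫ u : ℝ, ∫ x : ℝ, P (x + u) * Q x := rfl
  rw [e3, integral_integral_swap]
  · have h4 : ∀ x : ℝ, ∫ u : ℝ, P (x + u) * Q x = (∫ u : ℝ, P u) * Q x := by
      intro x
      rw [integral_mul_const]
      congr 1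
      exact integral_add_left_eq_self P x
    simp only [h4]
    rw [integral_const_mul]
  · have hint : Integrable (fun pr : ℝ × ℝ => P pr.1 * Q pr.2) (volume.prod volume) :=
      iP.mul_prod iQ
    have hmp : MeasurePreserving (fun pr : ℝ × ℝ => (pr.2 + pr.1, pr.2))
        ((volume : Measure ℝ).prod volume) (volume.prod volume) := by
      have := measurePreserving_add_prod (μ := (volume : Measure ℝ)) (ν := (volume : Measure ℝ))
      convert this using 2
      rw [add_comm]
    have := hmp.integrable_comp_of_integrable hint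
    exact this

theorem lap_conj {f : ℝ → ℂ} (z : ℂ) :
    lap (fun x => conj (f x)) (-z) = conj (lap f (-conj z)) := by
  unfold lap
  rw [← integral_conj]
  congr 1; funext x
  rw [map_mul, ← Complex.exp_conj]
  congr 2
  simp

/-! ## the autocorrelation -/

theorem corr_eq (f : ℝ → ℂ) : corr f = Co f (fun x => conj (f x)) := by
  funext v
  unfold corr Co
  rw [← integral_add_right_eq_self (fun u : ℝ => f u * conj (f (u - v))) v]
  simp only [add_sub_cancel_right]

theorem corr_neg (f : ℝ → ℂ) (v : ℝ) : corr f (-v) = conj (corr f v) := by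
  rw [corr_eq]
  unfold Co
  rw [← integral_conj, ← integral_add_right_eq_self (fun x : ℝ => f (x + -v) * conj (f x)) v]
  congr 1
  funext x
  rw [add_neg_cancel_right, map_mul, Complex.conj_conj]
  ring

theorem corr_zero (f : ℝ → ℂ) : corr f 0 = ((∫ u, ‖f u‖ ^ 2 : ℝ) : ℂ) := by
  unfold corr
  rw [← integral_complex_ofReal]
  congr 1
  funext u
  rw [sub_zero, Complex.mul_conj']
  push_cast
  rfl

section

variable {f : ℝ → ℂ} (hf : ContDiff ℝ 2 f) (hc : HasCompactSupport f)

include hf hc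

theorem int_sq : Integrable fun u => ‖f u‖ ^ 2 :=
  (hf.continuous.norm.pow 2).integrable_of_hasCompactSupport (by
    have := hc.norm
    simpa [pow_two] using this.mul_right (f' := fun u => ‖f u‖))

theorem int_dsq : Integrable fun u => ‖deriv f u‖ ^ 2 :=
  ((hf.continuous_deriv (by norm_num)).norm.pow 2).integrable_of_hasCompactSupport (by
    have := hc.deriv.norm
    simpa [pow_two] using this.mul_right (f' := fun u => ‖deriv f u‖))

theorem sq_nonneg' : 0 ≤ ∫ u, ‖f u‖ ^ 2 := integral_nonneg fun _ => by positivity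

theorem sq_le_en : ∫ u, ‖f u‖ ^ 2 ≤ en f := by
  unfold en
  have : 0 ≤ ∫ u, ‖deriv f u‖ ^ 2 := integral_nonneg fun _ => by positivity
  linarith

theorem dcorr_le (v : ℝ) : ‖Co (deriv f) (fun x => conj (f x)) v‖ ≤ en f / 2 := by
  unfold Co
  have i1 : Integrable fun x => ‖deriv f (x + v)‖ ^ 2 := (int_dsq hf hc).comp_add_right v
  have i2 := int_sq hf hc
  have i3 : Integrable fun x => (‖deriv f (x + v)‖ ^ 2 + ‖f x‖ ^ 2) / 2 := (i1.add i2).div_const 2
  refine (norm_integral_le_of_norm_le i3 (Filter.Eventually.of_forall fun x => ?_)).trans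
    (le_of_eq ?_)
  · rw [norm_mul, RCLike.norm_conj]
    nlinarith [sq_nonneg (‖deriv f (x + v)‖ - ‖f x‖)]
  · rw [integral_div, integral_add i1 i2,
      integral_add_right_eq_self (fun x : ℝ => ‖deriv f x‖ ^ 2) v]
    unfold en
    ring

theorem corr_sub (v : ℝ) (hv : 0 ≤ v) : ‖corr f v - corr f 0‖ ≤ en f / 2 * v := by
  have hcf : Continuous fun x => conj (f x) := Complex.continuous_conj.comp hf.continuous
  rw [corr_eq]
  have h := Convex.norm_image_sub_le_of_norm_hasDerivWithin_le (f := Co f (fun x => conj (f x)))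
    (f' := fun v => Co (deriv f) (fun x => conj (f x)) v) (s := univ) (x := 0) (y := v)
    (C := en f / 2) (fun x _ => (Co_deriv hf hc hcf x).hasDerivWithinAt)
    (fun x _ => dcorr_le hf hc x) convex_univ (mem_univ _) (mem_univ _)
  rwa [sub_zero, Real.norm_of_nonneg hv] at h

theorem corr_cd : ContDiff ℝ 2 (corr f) := by
  rw [corr_eq]
  exact Co_contDiff hf hc (Complex.continuous_conj.comp hf.continuous)

theorem corr_cs : HasCompactSupport (corr f) := by
  obtain ⟨b, hb⟩ := hc.isCompact.isBounded.exists_norm_le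
  have h1 : ∀ x, b < |x| → f x = 0 := fun x hx => by
    by_contra h
    have := hb x (subset_tsupport _ h)
    rw [Real.norm_eq_abs] at this
    linarith
  rw [corr_eq]
  exact Co_compact h1 fun x hx => by rw [h1 x hx, map_zero]

theorem weil_WW (W : ℝ) (hW : Weil f W) : (W : ℂ) = WW (corr f) := by
  have h1 := ef (corr f) (corr_cd hf hc) (corr_cs hf hc)
  refine HasSum.unique ?_ h1
  unfold Weil at hW
  convert hW using 1
  funext ρ
  congr 1
  have hcf : Continuous fun x => conj (f x) := Complex.continuous_conj.comp hf.continuous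
  have hcc : HasCompactSupport fun x => conj (f x) := hc.comp_left (g := conj) (map_zero _)
  rw [corr_eq, lap_Co (q := fun x => conj (f x)) hf.continuous hc hcf hcc, lap_conj]
  congr 3
  rw [map_sub, neg_sub]
  congr 1
  rw [map_div₀, map_one]
  congr 1
  exact Complex.conj_ofNat 2

end

/-! ## the exponential integrals -/

theorem int1 {a : ℝ} (ha : 0 < a) : IntegrableOn (fun v => Real.exp (-a * v)) (Ioi 0) ∧
    ∫ v in Ioi (0 : ℝ), Real.exp (-a * v) = 1 / a := by
  have h := Real.integral_rpow_mul_exp_neg_mul_Ioi (a := 1) (r := a) one_pos ha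
  have e : ∀ v : ℝ, v ^ ((1 : ℝ) - 1) * Real.exp (-(a * v)) = Real.exp (-a * v) := fun v => by
    rw [sub_self, Real.rpow_zero, one_mul, neg_mul]
  simp only [e] at h
  rw [Real.rpow_one, Real.Gamma_one, mul_one] at h
  refine ⟨?_, h⟩
  by_contra hn
  rw [integral_undef hn] at h
  have : 0 < 1 / a := by positivity
  linarith

theorem int2 {a : ℝ} (ha : 0 < a) : IntegrableOn (fun v => v * Real.exp (-a * v)) (Ioi 0) ∧
    ∫ v in Ioi (0 : ℝ), v * Real.exp (-a * v) = 1 / a ^ 2 := by
  have h := Real.integral_rpow_mul_exp_neg_mul_Ioi (a := 2) (r := a) two_pos ha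
  have e : ∀ v : ℝ, v ^ ((2 : ℝ) - 1) * Real.exp (-(a * v)) = v * Real.exp (-a * v) := fun v => by
    rw [show (2 : ℝ) - 1 = 1 by norm_num, Real.rpow_one, neg_mul]
  simp only [e] at h
  rw [Real.Gamma_two, mul_one, Real.rpow_two, div_pow, one_pow] at h
  refine ⟨?_, h⟩
  by_contra hn
  rw [integral_undef hn] at h
  have : 0 < 1 / a ^ 2 := by positivity
  linarith

theorem term_le {f : ℝ → ℂ} (hf : ContDiff ℝ 2 f) (hc : HasCompactSupport f) (n : ℕ) :
    |(∫ u, ‖f u‖ ^ 2) / ((n : ℝ) + 1) - ∫ v in Ioi (0 : ℝ), (2 * (corr f v).re) *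
      Real.exp (-(2 * ((n : ℝ) + 1) + 1 / 2) * v)| ≤ en f * (1 / ((n : ℝ) + 1) ^ 2) := by
  obtain ⟨N, hN⟩ : ∃ N : ℝ, N = (n : ℝ) + 1 := ⟨_, rfl⟩
  have hN0 : 0 < N := by rw [hN]; positivity
  rw [← hN]
  obtain ⟨a, ha⟩ : ∃ a : ℝ, a = 2 * N + 1 / 2 := ⟨_, rfl⟩
  have ha0 : 0 < a := by rw [ha]; positivity
  have haN : 2 * N ≤ a := by rw [ha]; linarith
  rw [← ha]
  obtain ⟨g0, hg0⟩ : ∃ g0 : ℝ, g0 = ∫ u, ‖f u‖ ^ 2 := ⟨_, rfl⟩
  have hg0n : 0 ≤ g0 := hg0 ▸ sq_nonneg' hf hc
  have hg0e : g0 ≤ en f := hg0 ▸ sq_le_en hf hc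
  have hen : 0 ≤ en f := hg0n.trans hg0e
  rw [← hg0]
  have hcre : Continuous fun v => (corr f v).re :=
    Complex.continuous_re.comp (corr_cd hf hc).continuous
  have hsre : HasCompactSupport fun v => (corr f v).re :=
    (corr_cs hf hc).comp_left (g := Complex.re) Complex.zero_re
  have iI : Integrable (fun v => (2 * (corr f v).re) * Real.exp (-a * v))
      (volume.restrict (Ioi (0 : ℝ))) := by
    refine Integrable.integrableOn ?_
    refine Continuous.integrable_of_hasCompactSupport ?_ ?_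
    · exact (continuous_const.mul hcre).mul (by fun_prop)
    · exact (hsre.mul_left (f := fun _ => (2 : ℝ))).mul_right
  obtain ⟨j1, k1⟩ := int1 ha0
  obtain ⟨j2, k2⟩ := int2 ha0
  have e1 : ∫ v in Ioi (0 : ℝ), (2 * (corr f v).re) * Real.exp (-a * v) =
      2 * g0 / a + ∫ v in Ioi (0 : ℝ), 2 * ((corr f v).re - g0) * Real.exp (-a * v) := by
    have h1 : ∀ v : ℝ, 2 * ((corr f v).re - g0) * Real.exp (-a * v) =
        (2 * (corr f v).re) * Real.exp (-a * v) - 2 * g0 * Real.exp (-a * v) := fun v => by ring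
    simp_rw [h1]
    rw [integral_sub iI (j1.const_mul (2 * g0)), integral_const_mul, k1]
    ring
  have e2 : |∫ v in Ioi (0 : ℝ), 2 * ((corr f v).re - g0) * Real.exp (-a * v)| ≤
      en f * (1 / a ^ 2) := by
    rw [← k2, ← integral_const_mul, ← Real.norm_eq_abs]
    refine norm_integral_le_of_norm_le (j2.const_mul (en f)) ?_
    refine (ae_restrict_iff' measurableSet_Ioi).2 (Filter.Eventually.of_forall fun v hv => ?_)
    have hv0 : 0 ≤ v := le_of_lt hv
    have h1 : |(corr f v).re - g0| ≤ en f / 2 * v := by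
      have h2 := (Complex.abs_re_le_norm (corr f v - corr f 0)).trans (corr_sub hf hc v hv0)
      rw [Complex.sub_re, corr_zero, Complex.ofReal_re, ← hg0] at h2
      exact h2
    rw [norm_mul, norm_mul, Real.norm_eq_abs, Real.norm_eq_abs, Real.norm_eq_abs, abs_two,
      Real.abs_exp]
    have h3 := Real.exp_pos (-a * v)
    nlinarith
  have e3 : g0 / N - (2 * g0 / a + ∫ v in Ioi (0 : ℝ), 2 * ((corr f v).re - g0) * Real.exp (-a * v)) =
      g0 * (1 / 2) / (N * a) - ∫ v in Ioi (0 : ℝ), 2 * ((corr f v).re - g0) * Real.exp (-a * v) := by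
    have : g0 / N - 2 * g0 / a = g0 * (1 / 2) / (N * a) := by
      rw [div_sub_div _ _ hN0.ne' ha0.ne']
      congr 1
      rw [ha]
      ring
    rw [← this]
    ring
  rw [e1, e3]
  have e4 : |g0 * (1 / 2) / (N * a)| ≤ en f * (1 / (4 * N ^ 2)) := by
    rw [abs_of_nonneg (by positivity)]
    calc g0 * (1 / 2) / (N * a) ≤ en f * (1 / 2) / (N * (2 * N)) := by gcongr
      _ = en f * (1 / (4 * N ^ 2)) := by
          field_simp
          ring
  have e5 : en f * (1 / a ^ 2) ≤ en f * (1 / (4 * N ^ 2)) := by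
    have : 4 * N ^ 2 ≤ a ^ 2 := by nlinarith
    gcongr
  have e6 : en f * (1 / (4 * N ^ 2)) = en f * (1 / N ^ 2) / 4 := by
    field_simp
  have e7 : 0 ≤ en f * (1 / N ^ 2) := by positivity
  calc _ ≤ |g0 * (1 / 2) / (N * a)| +
        |∫ v in Ioi (0 : ℝ), 2 * ((corr f v).re - g0) * Real.exp (-a * v)| := abs_sub _ _
    _ ≤ en f * (1 / (4 * N ^ 2)) + en f * (1 / (4 * N ^ 2)) := add_le_add e4 (e2.trans e5)
    _ ≤ en f * (1 / N ^ 2) := by
        rw [e6]
        linarith

theorem WW_corr (f : ℝ → ℂ) : WW (corr f) = ((cform f -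
    (Real.eulerMascheroniConstant + Real.log Real.pi) * (∫ u, ‖f u‖ ^ 2) +
    ∑' n : ℕ, ((∫ u, ‖f u‖ ^ 2) / ((n : ℝ) + 1) - ∫ v in Ioi (0 : ℝ), (2 * (corr f v).re) *
      Real.exp (-(2 * ((n : ℝ) + 1) + 1 / 2) * v)) : ℝ) : ℂ) := by
  have h2 : ∀ v, corr f v + corr f (-v) = ((2 * (corr f v).re : ℝ) : ℂ) := fun v => by
    rw [corr_neg, Complex.add_conj]
  unfold WW
  simp_rw [h2, corr_zero]
  have e1 : ∀ k : ℝ → ℝ, ∫ v in Ioi (0 : ℝ), ((2 * (corr f v).re : ℝ) : ℂ) * ((k v : ℝ) : ℂ) =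
      ((∫ v in Ioi (0 : ℝ), (2 * (corr f v).re) * k v : ℝ) : ℂ) := by
    intro k
    rw [← integral_complex_ofReal]
    congr 1
    funext v
    push_cast
    rfl
  rw [e1 fun v => Real.exp (v / 2)]
  have e2 : ∀ n : ℕ, ∫ v in Ioi (0 : ℝ), ((2 * (corr f v).re : ℝ) : ℂ) *
      ((Real.exp (-(2 * ((n : ℝ) + 1) + 1 / 2) * v) : ℝ) : ℂ) =
      ((∫ v in Ioi (0 : ℝ), (2 * (corr f v).re) *
        Real.exp (-(2 * ((n : ℝ) + 1) + 1 / 2) * v) : ℝ) : ℂ) := fun n =>
    e1 fun v => Real.exp (-(2 * ((n : ℝ) + 1) + 1 / 2) * v)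
  simp_rw [e2]
  unfold cform
  push_cast
  congr 1
  congr 1
  congr 1
  · rw [← Complex.ofReal_ofNat, ← Complex.ofReal_mul, ← integral_const_mul]
    congr 1
    refine integral_congr_ae (Filter.Eventually.of_forall fun v => ?_)
    show 2 * (corr f v).re * Real.exp (v / 2) = 2 * ((corr f v).re * Real.exp (v / 2))
    ring
  · rw [← tsum_mul_left]
    refine tsum_congr fun n => ?_
    ring

theorem sa : S_A := by
  obtain ⟨S, hS⟩ : ∃ S : ℝ, HasSum (fun n : ℕ => 1 / ((n : ℝ) + 1) ^ 2) S := by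
    have h1 : Summable fun n : ℕ => 1 / ((n : ℝ)) ^ 2 :=
      Real.summable_one_div_nat_pow.2 (by norm_num)
    have h2 := (summable_nat_add_iff 1).2 h1
    have h3 : Summable fun n : ℕ => 1 / ((n : ℝ) + 1) ^ 2 := by
      refine h2.congr fun n => ?_
      push_cast
      rfl
    exact h3
  have hS0 : 0 ≤ S := hS.nonneg fun n => by positivity
  refine ⟨|Real.eulerMascheroniConstant + Real.log Real.pi| + S + 1, by positivity,
    fun f hf hc W hW => ?_⟩
  have h1 := weil_WW hf hc W hW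
  rw [WW_corr] at h1
  have h2 := Complex.ofReal_injective h1
  obtain ⟨g0, hg0⟩ : ∃ g0 : ℝ, g0 = ∫ u, ‖f u‖ ^ 2 := ⟨_, rfl⟩
  have hg0n : 0 ≤ g0 := hg0 ▸ sq_nonneg' hf hc
  have hg0e : g0 ≤ en f := hg0 ▸ sq_le_en hf hc
  have hen : 0 ≤ en f := hg0n.trans hg0e
  have h3 := tsum_of_norm_bounded (hS.mul_left (en f)) fun n => by
    have := term_le hf hc n
    rwa [← Real.norm_eq_abs] at this
  rw [← hg0] at h2 h3
  rw [h2]
  obtain ⟨T, hT⟩ : ∃ T : ℝ, T = ∑' n : ℕ, (g0 / ((n : ℝ) + 1) - ∫ v in Ioi (0 : ℝ),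
    (2 * (corr f v).re) * Real.exp (-(2 * ((n : ℝ) + 1) + 1 / 2) * v)) := ⟨_, rfl⟩
  rw [← hT] at h3 ⊢
  rw [Real.norm_eq_abs] at h3
  have e : cform f - (cform f - (Real.eulerMascheroniConstant + Real.log Real.pi) * g0 + T) =
      (Real.eulerMascheroniConstant + Real.log Real.pi) * g0 - T := by ring
  rw [e]
  calc _ ≤ |(Real.eulerMascheroniConstant + Real.log Real.pi) * g0| + |T| := abs_sub _ _
    _ ≤ |Real.eulerMascheroniConstant + Real.log Real.pi| * en f + en f * S := by
        refine add_le_add ?_ h3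
        rw [abs_mul, abs_of_nonneg hg0n]
        exact mul_le_mul_of_nonneg_left hg0e (abs_nonneg _)
    _ ≤ _ := by nlinarith

end Pool.Agent.W338.MW
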